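import Pool.Agent.W236.SC.QDefs

/-!
# Project SC: a positive root becomes simple by rotation
-/

set_option autoImplicit false
set_option linter.unusedSectionVars false

namespace Pool.Agent.W397.SC

open Pool.Agent.W236.Qv

variable {S : Type*} [Fintype S] [DecidableEq S] (G : Gph S)

/-- twice the coordinate minus the sum over the neighbours -/
def aa (r : S) (x : S → ℤ) : ℤ := 2 * x r - ∑ t, if G.adj r t then x t else 0

lemma aa_add (r : S) (x y : S → ℤ) : aa G r (x + y) = aa G r x + aa G r y := by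
  unfold aa
  have : (∑ t, if G.adj r t then (x + y) t else 0) =
      (∑ t, if G.adj r t then x t else 0) + ∑ t, if G.adj r t then y t else 0 := by
    rw [← Finset.sum_add_distrib]
    apply Finset.sum_congr rfl
    intro t _
    split_ifs <;> simp
  rw [this]
  simp only [Pi.add_apply]
  ring

lemma aa_smul (r : S) (c : ℤ) (x : S → ℤ) : aa G r (c • x) = c * aa G r x := by
  unfold aa
  have : (∑ t, if G.adj r t then (c • x) t else 0) = c * ∑ t, if G.adj r t then x t else 0 := by
    rw [Finset.mul_sum]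
    apply Finset.sum_congr rfl
    intro t _
    split_ifs <;> simp
  rw [this]
  simp only [Pi.smul_apply, smul_eq_mul]
  ring

lemma aa_single (i r : S) : aa G i (Pi.single r 1) =
    (if i = r then 2 else 0) - (if G.adj i r then 1 else 0) := by
  unfold aa
  have : (∑ t, if G.adj i t then (Pi.single r 1 : S → ℤ) t else 0) =
      if G.adj i r then 1 else 0 := by
    rw [Finset.sum_eq_single r]
    · simp
    · intro t _ ht
      simp [ht]
    · intro h; exact absurd (Finset.mem_univ r) h
  rw [this]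
  by_cases h : i = r
  · subst h; simp
  · simp [h]

lemma sr_eq (r : S) (x : S → ℤ) : G.sr r x = x + (-aa G r x) • (Pi.single r 1 : S → ℤ) := by
  funext i
  unfold Gph.sr aa
  by_cases h : i = r
  · subst h
    simp only [Function.update_self, Pi.add_apply, Pi.smul_apply, Pi.single_eq_same, smul_eq_mul,
      mul_one]
    ring
  · simp [h]

lemma qf_eq (x : S → ℤ) : G.qf x = ∑ i, x i * aa G i x := rfl

lemma qf_add (u : S → ℤ) (v : ℤ) (r : S) :
    G.qf (u + v • (Pi.single r 1 : S → ℤ)) = G.qf u + 2 * v * aa G r u + 2 * v ^ 2 := by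
  rw [qf_eq, qf_eq]
  have h1 : ∀ i, (u + v • (Pi.single r 1 : S → ℤ)) i * aa G i (u + v • (Pi.single r 1 : S → ℤ)) =
      u i * aa G i u + v * (u i * aa G i (Pi.single r 1)) +
        (Pi.single r 1 : S → ℤ) i * (v * aa G i u + v ^ 2 * aa G i (Pi.single r 1)) := by
    intro i
    rw [aa_add, aa_smul]
    simp only [Pi.add_apply, Pi.smul_apply, smul_eq_mul]
    ring
  rw [Finset.sum_congr rfl fun i _ => h1 i, Finset.sum_add_distrib, Finset.sum_add_distrib,
    ← Finset.mul_sum]
  have h2 : ∑ i, u i * aa G i (Pi.single r 1) = aa G r u := by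
    have : ∀ i, u i * aa G i (Pi.single r 1) =
        (if i = r then 2 * u i else 0) - (if G.adj r i then u i else 0) := by
      intro i
      rw [aa_single, G.symm i r]
      split_ifs <;> ring
    rw [Finset.sum_congr rfl fun i _ => this i, Finset.sum_sub_distrib]
    unfold aa
    congr 1
    simp
  have h3 : ∑ i, (Pi.single r 1 : S → ℤ) i * (v * aa G i u + v ^ 2 * aa G i (Pi.single r 1)) =
      v * aa G r u + v ^ 2 * 2 := by
    rw [Finset.sum_eq_single r]
    · rw [aa_single]
      simp [G.irr]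
    · intro t _ ht
      simp [ht]
    · intro h; exact absurd (Finset.mem_univ r) h
  rw [h2, h3]
  ring

lemma qf_sr (r : S) (x : S → ℤ) : G.qf (G.sr r x) = G.qf x := by
  rw [sr_eq, qf_add]
  ring

lemma qf_pos (hPD : G.PD) {x : S → ℤ} (hx : x ≠ 0) : 0 < G.qf x := by
  have h1 : (fun i => (x i : ℝ)) ≠ 0 := by
    intro h
    apply hx
    funext i
    have := congrFun h i
    simpa using this
  have h2 := hPD _ h1
  have h3 : ((G.qf x : ℤ) : ℝ) = ∑ i, (x i : ℝ) * (2 * (x i : ℝ) -
      ∑ t, if G.adj i t then (x t : ℝ) else 0) := by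
    unfold Gph.qf
    push_cast
    rfl
  rw [← h3] at h2
  exact_mod_cast h2

/-- Reflections of positive roots. -/
lemma sr_nonneg (hPD : G.PD) {x : S → ℤ} (hx : 0 ≤ x) (hq : G.qf x = 2) {r : S}
    (hr : x ≠ Pi.single r 1) : 0 ≤ G.sr r x := by
  by_contra hneg
  have hout : ∀ i, i ≠ r → G.sr r x i = x i := fun i hi => by
    unfold Gph.sr
    simp [hi]
  have hlt : G.sr r x r < 0 := by
    by_contra h
    apply hneg
    intro i
    by_cases hi : i = r
    · subst hi; simpa using h
    · rw [hout i hi]; exact hx i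
  set m : ℤ := -G.sr r x r with hm
  have hm1 : 1 ≤ m := by omega
  set u : S → ℤ := Function.update x r 0 with hu
  have hu0 : ∀ i, 0 ≤ u i := by
    intro i
    rw [hu]
    by_cases hi : i = r
    · subst hi; simp
    · simp only [Function.update_of_ne hi]; exact hx i
  have e1 : G.sr r x = u + (-m) • (Pi.single r 1 : S → ℤ) := by
    funext i
    by_cases hi : i = r
    · subst hi; simp [hu, hm]
    · rw [hout i hi]; simp [hu, hi]
  have e2 : x = u + (x r) • (Pi.single r 1 : S → ℤ) := by
    funext i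
    by_cases hi : i = r
    · subst hi; simp [hu]
    · simp [hu, hi]
  have h1 : aa G r u ≤ 0 := by
    unfold aa
    have h2 : 0 ≤ ∑ t, if G.adj r t then u t else 0 :=
      Finset.sum_nonneg fun t _ => by split_ifs; exacts [hu0 t, le_rfl]
    have h3 : u r = 0 := by simp [hu]
    rw [h3]
    linarith
  have h2 : G.qf u + 2 * (-m) * aa G r u + 2 * (-m) ^ 2 = 2 := by
    rw [← qf_add, ← e1, qf_sr, hq]
  have h3 : G.qf u ≤ 0 := by
    have h4 : 0 ≤ (-m) * aa G r u := mul_nonneg_of_nonpos_of_nonpos (by omega) h1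
    nlinarith
  have h4 : u = 0 := by
    by_contra h
    have := qf_pos G hPD h
    omega
  have h5 : G.qf x = 2 * (x r) ^ 2 := by
    rw [e2, h4, qf_add]
    have : aa G r (0 : S → ℤ) = 0 := by unfold aa; simp
    rw [this]
    have h0 : G.qf (0 : S → ℤ) = 0 := by unfold Gph.qf; simp
    rw [h0]
    simp
  have h6 : x r = 1 := by
    rw [hq] at h5
    have h7 : (x r) ^ 2 = 1 := by omega
    have h8 := hx r
    simp only [Pi.zero_apply] at h8
    nlinarith
  apply hr
  rw [e2, h4, h6]
  simp

/-- Finiteness of the set of roots. -/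
lemma finite_roots (hPD : G.PD) : {x : S → ℤ | G.qf x = 2}.Finite := by
  set Q : (S → ℝ) → ℝ := fun x => ∑ i, x i * (2 * x i - ∑ t, if G.adj i t then x t else 0) with hQ
  have hQc : Continuous Q := by
    rw [hQ]
    apply continuous_finsetSum
    intro i _
    apply (continuous_apply i).mul
    apply ((continuous_const.mul (continuous_apply i))).sub
    apply continuous_finsetSum
    intro t _
    split_ifs
    · exact continuous_apply t
    · exact continuous_const
  have hQs : ∀ (c : ℝ) (x : S → ℝ), Q (c • x) = c ^ 2 * Q x := by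
    intro c x
    simp only [hQ]
    rw [Finset.mul_sum]
    apply Finset.sum_congr rfl
    intro i _
    have : (∑ t, if G.adj i t then (c • x) t else 0) = c * ∑ t, if G.adj i t then x t else 0 := by
      rw [Finset.mul_sum]
      apply Finset.sum_congr rfl
      intro t _
      split_ifs <;> simp
    rw [this]
    simp only [Pi.smul_apply, smul_eq_mul]
    ring
  obtain ⟨ε, hε, hεQ⟩ : ∃ ε : ℝ, 0 < ε ∧ ∀ x ∈ Metric.sphere (0 : S → ℝ) 1, ε ≤ Q x := by
    by_cases hne : (Metric.sphere (0 : S → ℝ) 1).Nonempty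
    · obtain ⟨x0, hx0, hmin⟩ := (isCompact_sphere (0 : S → ℝ) 1).exists_isMinOn hne hQc.continuousOn
      refine ⟨Q x0, hPD x0 ?_, fun x hx => hmin hx⟩
      intro h
      rw [h] at hx0
      simp at hx0
    · exact ⟨1, one_pos, fun x hx => absurd ⟨x, hx⟩ hne⟩
  have hbd : ∀ x : S → ℝ, ε * ‖x‖ ^ 2 ≤ Q x := by
    intro x
    by_cases hx : x = 0
    · subst hx
      have : Q 0 = 0 := by simp [hQ]
      rw [this]; simp
    · have hn : 0 < ‖x‖ := norm_pos_iff.2 hx
      have h1 := hεQ (‖x‖⁻¹ • x) (by
        rw [mem_sphere_zero_iff_norm, norm_smul, norm_inv, norm_norm, inv_mul_cancel₀ hn.ne'])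
      rw [hQs] at h1
      have h2 : ‖x‖⁻¹ ^ 2 * Q x * ‖x‖ ^ 2 = Q x := by
        field_simp
      calc ε * ‖x‖ ^ 2 ≤ ‖x‖⁻¹ ^ 2 * Q x * ‖x‖ ^ 2 :=
            mul_le_mul_of_nonneg_right h1 (by positivity)
        _ = Q x := h2
  set N : ℕ := ⌈2 / ε⌉₊ + 1 with hN
  apply (Set.finite_Icc (fun _ : S => -(N : ℤ)) (fun _ : S => (N : ℤ))).subset
  intro x hx
  have hx2 : G.qf x = 2 := hx
  have h3 : Q (fun i => (x i : ℝ)) = 2 := by
    have h4 : ((G.qf x : ℤ) : ℝ) = Q (fun i => (x i : ℝ)) := by
      simp only [hQ]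
      unfold Gph.qf
      push_cast
      rfl
    rw [← h4, hx2]
    norm_num
  have h4 := hbd (fun i => (x i : ℝ))
  rw [h3] at h4
  have h5 : ∀ i, |x i| ≤ N := by
    intro i
    have h6 : |(x i : ℝ)| ≤ ‖fun i => (x i : ℝ)‖ := by
      rw [← Real.norm_eq_abs]
      exact norm_le_pi_norm (fun i => (x i : ℝ)) i
    have h7 : |(x i : ℝ)| ^ 2 ≤ 2 / ε := by
      rw [le_div_iff₀ hε]
      have := pow_le_pow_left₀ (abs_nonneg _) h6 2
      nlinarith
    have h8 : |(x i : ℝ)| ≤ N := by
      by_contra h
      push Not at h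
      have h9 : (2 / ε) < N := by
        rw [hN]
        push_cast
        have := Nat.le_ceil (2 / ε)
        linarith
      have h10 : (1 : ℝ) ≤ N := by
        rw [hN]; push_cast
        have : (0 : ℝ) ≤ (⌈2 / ε⌉₊ : ℝ) := by positivity
        linarith
      nlinarith
    exact_mod_cast h8
  refine ⟨fun i => ?_, fun i => ?_⟩
  · exact (abs_le.1 (h5 i)).1
  · exact (abs_le.1 (h5 i)).2

/-- the product of the reflections in the list -/
def cc (l : List S) (x : S → ℤ) : S → ℤ := l.foldl (fun x r => G.sr r x) x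

lemma sr_add (r : S) (x y : S → ℤ) : G.sr r (x + y) = G.sr r x + G.sr r y := by
  rw [sr_eq, sr_eq, sr_eq, aa_add]
  module

lemma cc_add (l : List S) : ∀ x y : S → ℤ, cc G l (x + y) = cc G l x + cc G l y := by
  induction l with
  | nil => intro x y; rfl
  | cons r l ih =>
    intro x y
    show cc G l (G.sr r (x + y)) = cc G l (G.sr r x) + cc G l (G.sr r y)
    rw [sr_add, ih]

lemma cc_out (l : List S) : ∀ (x : S → ℤ) (r : S), r ∉ l → cc G l x r = x r := by
  induction l with
  | nil => intro x r _; rfl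
  | cons s l ih =>
    intro x r hr
    rw [List.mem_cons, not_or] at hr
    show cc G l (G.sr s x) r = x r
    rw [ih _ _ hr.2]
    unfold Gph.sr
    simp [hr.1]

lemma cc_fix (l : List S) : ∀ x : S → ℤ, l.Nodup → (∀ r ∈ l, cc G l x r = x r) →
    ∀ r ∈ l, aa G r x = 0 := by
  induction l with
  | nil => intro x _ _ r hr; simp at hr
  | cons s l ih =>
    intro x hnd hfix
    rw [List.nodup_cons] at hnd
    have h1 : cc G l (G.sr s x) s = x s := hfix s (by simp)
    rw [cc_out G l _ _ hnd.1, sr_eq] at h1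
    have h2 : aa G s x = 0 := by
      simp at h1
      exact h1
    have h3 : G.sr s x = x := by
      rw [sr_eq, h2]; simp
    intro r hr
    rcases List.mem_cons.1 hr with rfl | hr
    · exact h2
    · apply ih x hnd.2 _ r hr
      intro t ht
      have h4 : cc G l (G.sr s x) t = x t := hfix t (List.mem_cons_of_mem _ ht)
      rwa [h3] at h4

/-- One round of the rotation. -/
lemma round (hPD : G.PD) (l1 : List S) : ∀ (l2 : List S) (p : S → ℕ) (x : S → ℤ),
    (∀ s, s ∈ l1 ++ l2) → (l1 ++ l2).Nodup → (l1 ++ l2).Pairwise (fun a b => p a ≤ p b) →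
    G.Fr p → 0 ≤ x → G.qf x = 2 → ¬ Reach G p x →
    ∃ p' : S → ℕ, G.Fr p' ∧ (l2 ++ l1).Pairwise (fun a b => p' a ≤ p' b) ∧
      0 ≤ cc G l1 x ∧ G.qf (cc G l1 x) = 2 ∧ ¬ Reach G p' (cc G l1 x) := by
  induction l1 with
  | nil =>
    intro l2 p x _ _ hs hF hx hq hR
    exact ⟨p, hF, by simpa using hs, hx, hq, hR⟩
  | cons r l ih =>
    intro l2 p x hall hnd hs hF hx hq hR
    rw [List.cons_append] at hall hnd hs
    rw [List.nodup_cons] at hnd
    rw [List.pairwise_cons] at hs
    set M : ℕ := 1 + ∑ s, p s with hM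
    have hMp : ∀ s, p s < M := by
      intro s
      have : p s ≤ ∑ s, p s := Finset.single_le_sum (f := p) (fun _ _ => Nat.zero_le _)
        (Finset.mem_univ s)
      omega
    set p1 : S → ℕ := Function.update p r M with hp1
    have hp1r : p1 r = M := by simp [hp1]
    have hp1o : ∀ j, j ≠ r → p1 j = p j := fun j hj => by simp [hp1, hj]
    have hRot : G.Rot p r p1 := by
      refine ⟨hp1o, fun j hj => ?_⟩
      have hjr : j ≠ r := by
        rintro rfl
        rw [G.irr] at hj
        exact absurd hj (by simp)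
      have hjm : j ∈ l ++ l2 := by
        rcases List.mem_cons.1 (hall j) with h | h
        · exact absurd h hjr
        · exact h
      refine ⟨lt_of_le_of_ne (hs.1 j hjm) (hF r j hj), ?_⟩
      rw [hp1r]
      exact hMp j
    have hF1 : G.Fr p1 := by
      intro i j hij
      by_cases hi : i = r
      · subst hi
        have hji : j ≠ i := by
          rintro rfl
          rw [G.irr] at hij
          exact absurd hij (by simp)
        rw [hp1r, hp1o j hji]
        exact (hMp j).ne'
      · by_cases hj : j = r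
        · subst hj
          rw [hp1r, hp1o i hi]
          exact (hMp i).ne
        · rw [hp1o i hi, hp1o j hj]
          exact hF i j hij
    have hxr : x ≠ Pi.single r 1 := by
      rintro rfl
      exact hR (Reach.base p r)
    have hx1 := sr_nonneg G hPD hx hq hxr
    have hq1 : G.qf (G.sr r x) = 2 := by rw [qf_sr, hq]
    have hR1 : ¬ Reach G p1 (G.sr r x) := fun h => hR (Reach.step p r p1 x hRot hx hx1 h)
    have hs1 : (l ++ (l2 ++ [r])).Pairwise (fun a b => p1 a ≤ p1 b) := by
      rw [← List.append_assoc, List.pairwise_append]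
      refine ⟨?_, List.pairwise_singleton _ _, ?_⟩
      · refine hs.2.imp_of_mem ?_
        intro a b ha hb hab
        have h1 : a ≠ r := fun h => hnd.1 (h ▸ ha)
        have h2 : b ≠ r := fun h => hnd.1 (h ▸ hb)
        rw [hp1o a h1, hp1o b h2]
        exact hab
      · intro a ha b hb
        rw [List.mem_singleton] at hb
        subst hb
        have h1 : a ≠ b := fun h => hnd.1 (h ▸ ha)
        rw [hp1r, hp1o a h1]
        exact (hMp a).le
    have hnd1 : (l ++ (l2 ++ [r])).Nodup := by
      rw [← List.append_assoc, List.nodup_append]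
      refine ⟨hnd.2, List.nodup_singleton r, ?_⟩
      intro a ha b hb
      rw [List.mem_singleton] at hb
      subst hb
      exact fun h => hnd.1 (h ▸ ha)
    have hall1 : ∀ s, s ∈ l ++ (l2 ++ [r]) := by
      intro s
      have := hall s
      simp only [List.mem_cons, List.mem_append] at this ⊢
      tauto
    obtain ⟨p', h1, h2, h3, h4, h5⟩ := ih (l2 ++ [r]) p1 (G.sr r x) hall1 hnd1 hs1 hF1 hx1 hq1 hR1
    refine ⟨p', h1, ?_, h3, h4, h5⟩
    rw [List.append_assoc, List.singleton_append] at h2
    exact h2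

theorem reach : S_Reach G := by
  intro hPD p x hF hx hq
  by_contra hR
  -- the enumeration
  obtain ⟨L, hLnd, hLall, hLs⟩ : ∃ L : List S, L.Nodup ∧ (∀ s, s ∈ L) ∧
      L.Pairwise (fun a b => p a ≤ p b) := by
    refine ⟨(Finset.univ : Finset S).toList.insertionSort (fun a b => p a ≤ p b), ?_, ?_, ?_⟩
    · exact (List.perm_insertionSort _ _).nodup_iff.2 (Finset.nodup_toList _)
    · intro s
      rw [(List.perm_insertionSort _ _).mem_iff]
      simp
    · have : Std.Total (fun a b : S => p a ≤ p b) := ⟨fun a b => le_total _ _⟩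
      have : IsTrans S (fun a b => p a ≤ p b) := ⟨fun a b c => le_trans⟩
      exact List.pairwise_insertionSort _ _
  -- all rounds
  have hit : ∀ m : ℕ, ∃ p' : S → ℕ, G.Fr p' ∧ L.Pairwise (fun a b => p' a ≤ p' b) ∧
      0 ≤ (cc G L)^[m] x ∧ G.qf ((cc G L)^[m] x) = 2 ∧ ¬ Reach G p' ((cc G L)^[m] x) := by
    intro m
    induction m with
    | zero => exact ⟨p, hF, hLs, hx, hq, hR⟩
    | succ m ih =>
      obtain ⟨p', h1, h2, h3, h4, h5⟩ := ih
      have := round G hPD L [] p' ((cc G L)^[m] x) (by simpa using hLall) (by simpa using hLnd)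
        (by simpa using h2) h1 h3 h4 h5
      rw [Function.iterate_succ_apply']
      simpa using this
  have hpos : ∀ m : ℕ, 0 ≤ (cc G L)^[m] x := fun m => (hit m).choose_spec.2.2.1
  have hroot : ∀ m : ℕ, G.qf ((cc G L)^[m] x) = 2 := fun m => (hit m).choose_spec.2.2.2.1
  -- periodicity
  obtain ⟨a, b, hab, heq⟩ : ∃ a b : ℕ, a < b ∧ (cc G L)^[a] x = (cc G L)^[b] x := by
    have hfin := finite_roots G hPD
    have : Finite {x : S → ℤ | G.qf x = 2} := hfin
    have hni : ¬ Function.Injective (fun m : ℕ => (⟨(cc G L)^[m] x, hroot m⟩ :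
        {x : S → ℤ | G.qf x = 2})) := not_injective_infinite_finite _
    rw [Function.Injective] at hni
    push Not at hni
    obtain ⟨a, b, h1, h2⟩ := hni
    have h3 : (cc G L)^[a] x = (cc G L)^[b] x := congrArg Subtype.val h1
    rcases lt_or_gt_of_ne h2 with h | h
    · exact ⟨a, b, h, h3⟩
    · exact ⟨b, a, h, h3.symm⟩
  set z : S → ℤ := ∑ m ∈ Finset.Ico a b, (cc G L)^[m] x with hz
  have hcz : cc G L z = z := by
    let φ : (S → ℤ) →+ (S → ℤ) := AddMonoidHom.mk' (cc G L) (cc_add G L)
    have h1 : cc G L z = ∑ m ∈ Finset.Ico a b, (cc G L)^[m + 1] x := by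
      show φ z = _
      rw [hz, map_sum]
      apply Finset.sum_congr rfl
      intro m _
      show cc G L _ = _
      rw [Function.iterate_succ_apply']
    rw [h1, hz, Finset.sum_Ico_add' (fun m => (cc G L)^[m] x) a b 1]
    have h2 := Finset.sum_Ico_succ_top (a := a) (b := b) hab.le (fun m => (cc G L)^[m] x)
    have h3 := Finset.sum_eq_sum_Ico_succ_bot (a := a) (b := b + 1) (by omega)
      (fun m => (cc G L)^[m] x)
    rw [h2] at h3
    rw [← heq] at h3
    have h4 : (∑ m ∈ Finset.Ico a b, (cc G L)^[m] x) + (cc G L)^[a] x =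
        (∑ m ∈ Finset.Ico (a + 1) (b + 1), (cc G L)^[m] x) + (cc G L)^[a] x := by
      rw [h3]; abel
    exact (add_right_cancel h4).symm
  have haz : ∀ r, aa G r z = 0 := fun r =>
    cc_fix G L z hLnd (fun r _ => by rw [hcz]) r (hLall r)
  have hqz : G.qf z = 0 := by
    rw [qf_eq]
    apply Finset.sum_eq_zero
    intro i _
    rw [haz i, mul_zero]
  have hz0 : z = 0 := by
    by_contra h
    have := qf_pos G hPD h
    omega
  have hle : (cc G L)^[a] x ≤ z := by
    rw [hz]
    exact Finset.single_le_sum (f := fun m => (cc G L)^[m] x) (fun m _ => hpos m)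
      (Finset.mem_Ico.2 ⟨le_rfl, hab⟩)
  have hxa : (cc G L)^[a] x = 0 := by
    apply le_antisymm
    · rw [← hz0]; exact hle
    · exact hpos a
  have := hroot a
  rw [hxa] at this
  have h0 : G.qf (0 : S → ℤ) = 0 := by unfold Gph.qf; simp
  omega

end Pool.Agent.W397.SC
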