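import Pool.Agent.W564.SC.Defs2

/-!
# Project SC, part ALPHA: torus rotations of order `m` with well separated orbits
-/

namespace Pool.Agent.W397.SC

open Pool.Agent.W564.SC Pool.Agent.H718R2.G

/-- The least `b` with `m ≤ b ^ k`. -/
theorem exists_base (k m : ℕ) (hk : 1 ≤ k) (hm : 1 ≤ m) :
    ∃ b : ℕ, 1 ≤ b ∧ m ≤ b ^ k ∧ b ^ k ≤ 2 ^ k * m := by
  classical
  have hex : ∃ b : ℕ, m ≤ b ^ k := ⟨m, Nat.le_self_pow (by omega) m⟩
  set b := Nat.find hex with hb
  have hb1 : m ≤ b ^ k := Nat.find_spec hex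
  have hb0 : 1 ≤ b := by
    rcases Nat.eq_zero_or_pos b with h | h
    · rw [h, zero_pow (by omega)] at hb1
      omega
    · exact h
  refine ⟨b, hb0, hb1, ?_⟩
  rcases Nat.lt_or_ge b 2 with h2 | h2
  · have : b = 1 := by omega
    rw [this, one_pow]
    have : 1 ≤ 2 ^ k := Nat.one_le_two_pow
    nlinarith
  · have hlt : ¬ m ≤ (b - 1) ^ k := Nat.find_min hex (by omega)
    push Not at hlt
    calc b ^ k ≤ (2 * (b - 1)) ^ k := Nat.pow_le_pow_left (by omega) k
      _ = 2 ^ k * (b - 1) ^ k := by rw [mul_pow]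
      _ ≤ 2 ^ k * m := Nat.mul_le_mul_left _ hlt.le

theorem alpha : S_ALPHA := by
  intro k hk
  refine ⟨(2 : ℝ) ^ (k * (k - 1)) + 4 ^ k, ?_, ?_⟩
  · have h1 : (1 : ℝ) ≤ 2 ^ (k * (k - 1)) := one_le_pow₀ (by norm_num)
    have h2 : (0 : ℝ) ≤ 4 ^ k := by positivity
    linarith
  intro m hm
  obtain ⟨b, hb0, hb1, hb2⟩ := exists_base k m hk hm
  have hm0 : (0 : ℝ) < m := by exact_mod_cast hm
  have hb0' : (1 : ℝ) ≤ b := by exact_mod_cast hb0
  have hb1' : (m : ℝ) ≤ (b : ℝ) ^ k := by exact_mod_cast hb1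
  have hb2' : (b : ℝ) ^ k ≤ 2 ^ k * m := by exact_mod_cast hb2
  refine ⟨WithLp.toLp 2 (fun j : Fin k => (b : ℝ) ^ (j : ℕ) / m), ?_, ?_, ?_⟩
  · intro j
    refine ⟨(b : ℤ) ^ (j : ℕ), ?_⟩
    push_cast
    field_simp
  · intro j
    change |(b : ℝ) ^ (j : ℕ) / m| ^ k ≤ _
    have hj : (j : ℕ) ≤ k - 1 := by have := j.2; omega
    have hnn : (0 : ℝ) ≤ (b : ℝ) ^ (j : ℕ) / m := by positivity
    rw [abs_of_nonneg hnn]
    have h1 : ((b : ℝ) ^ (j : ℕ) / m) ^ k ≤ ((b : ℝ) ^ (k - 1) / m) ^ k := by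
      apply pow_le_pow_left₀ hnn
      exact div_le_div_of_nonneg_right (pow_le_pow_right₀ hb0' hj) hm0.le
    have h2 : ((b : ℝ) ^ (k - 1) / m) ^ k ≤ 2 ^ (k * (k - 1)) / m := by
      have e1 : ((b : ℝ) ^ (k - 1) / m) ^ k = ((b : ℝ) ^ k) ^ (k - 1) / (m : ℝ) ^ k := by
        rw [div_pow, ← pow_mul, ← pow_mul, mul_comm]
      have e2 : ((b : ℝ) ^ k) ^ (k - 1) ≤ (2 ^ k * m) ^ (k - 1) :=
        pow_le_pow_left₀ (by positivity) hb2' _
      have e3 : ((2 : ℝ) ^ k * m) ^ (k - 1) = 2 ^ (k * (k - 1)) * (m : ℝ) ^ (k - 1) := by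
        rw [mul_pow, ← pow_mul]
      have e4 : (m : ℝ) ^ k = (m : ℝ) ^ (k - 1) * m := by
        rw [← pow_succ]
        congr 1
        omega
      rw [e1, e4, div_le_div_iff₀ (by positivity) hm0]
      rw [e3] at e2
      calc ((b : ℝ) ^ k) ^ (k - 1) * m ≤ (2 ^ (k * (k - 1)) * (m : ℝ) ^ (k - 1)) * m :=
            mul_le_mul_of_nonneg_right e2 hm0.le
        _ = 2 ^ (k * (k - 1)) * ((m : ℝ) ^ (k - 1) * m) := by ring
    have h3 : (2 : ℝ) ^ (k * (k - 1)) / m ≤ (2 ^ (k * (k - 1)) + 4 ^ k) / m := by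
      apply div_le_div_of_nonneg_right _ hm0.le
      have : (0 : ℝ) ≤ 4 ^ k := by positivity
      linarith
    exact h1.trans (h2.trans h3)
  · intro ρ hρ0 hρ i hi0 him
    by_contra hcon
    push Not at hcon
    change ∀ j : Fin k, ∃ t : ℤ, |(i : ℝ) * ((b : ℝ) ^ (j : ℕ) / m) - t| < ρ at hcon
    -- `2 b ρ ≤ 1`
    have hbρ : 2 * (b : ℝ) * ρ ≤ 1 := by
      have hpow : (2 * (b : ℝ) * ρ) ^ k ≤ 1 := by
        have e0 : (1 : ℝ) / ((2 ^ (k * (k - 1)) + 4 ^ k) * m) ≤ 1 / (4 ^ k * m) := by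
          apply one_div_le_one_div_of_le (by positivity)
          apply mul_le_mul_of_nonneg_right _ hm0.le
          have : (0 : ℝ) ≤ 2 ^ (k * (k - 1)) := by positivity
          linarith
        calc (2 * (b : ℝ) * ρ) ^ k = 2 ^ k * (b : ℝ) ^ k * ρ ^ k := by rw [mul_pow, mul_pow]
          _ ≤ 2 ^ k * (2 ^ k * m) * (1 / (4 ^ k * m)) := by
              apply mul_le_mul _ (hρ.trans e0) (by positivity) (by positivity)
              exact mul_le_mul_of_nonneg_left hb2' (by positivity)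
          _ = 1 := by
              have : (4 : ℝ) ^ k = 2 ^ k * 2 ^ k := by rw [← mul_pow]; norm_num
              rw [this]
              field_simp
      by_contra hgt
      push Not at hgt
      have : 1 < (2 * (b : ℝ) * ρ) ^ k := one_lt_pow₀ hgt (by omega)
      linarith
    choose t ht using hcon
    have hr : ∀ j : Fin k, |(i : ℝ) * (b : ℝ) ^ (j : ℕ) - m * t j| < ρ * m := by
      intro j
      have h := ht j
      have e : (i : ℝ) * (b : ℝ) ^ (j : ℕ) - m * t j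
          = ((i : ℝ) * ((b : ℝ) ^ (j : ℕ) / m) - t j) * m := by
        field_simp
      rw [e, abs_mul, abs_of_pos hm0]
      exact mul_lt_mul_of_pos_right h hm0
    -- the representatives
    have hstep : ∀ j : ℕ, ∀ hj : j < k, t ⟨j, hj⟩ = (b : ℤ) ^ j * t ⟨0, by omega⟩ := by
      intro j
      induction j with
      | zero => intro hj; simp
      | succ j ih =>
        intro hj
        have hj' : j < k := by omega
        have h1 := hr ⟨j, hj'⟩
        have h2 := hr ⟨j + 1, hj⟩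
        simp only at h1 h2
        have h3 : |(m : ℝ) * ((b : ℝ) * t ⟨j, hj'⟩ - t ⟨j + 1, hj⟩)| < m := by
          have e : (m : ℝ) * ((b : ℝ) * t ⟨j, hj'⟩ - t ⟨j + 1, hj⟩)
              = ((i : ℝ) * (b : ℝ) ^ (j + 1) - m * t ⟨j + 1, hj⟩)
                - b * ((i : ℝ) * (b : ℝ) ^ j - m * t ⟨j, hj'⟩) := by
            rw [pow_succ]; ring
          rw [e]
          have h4 : |(b : ℝ) * ((i : ℝ) * (b : ℝ) ^ j - m * t ⟨j, hj'⟩)| ≤ b * (ρ * m) := by
            rw [abs_mul, abs_of_nonneg (by linarith : (0 : ℝ) ≤ b)]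
            exact mul_le_mul_of_nonneg_left h1.le (by linarith)
          calc |((i : ℝ) * (b : ℝ) ^ (j + 1) - m * t ⟨j + 1, hj⟩)
                - b * ((i : ℝ) * (b : ℝ) ^ j - m * t ⟨j, hj'⟩)|
              ≤ |(i : ℝ) * (b : ℝ) ^ (j + 1) - m * t ⟨j + 1, hj⟩|
                + |b * ((i : ℝ) * (b : ℝ) ^ j - m * t ⟨j, hj'⟩)| := abs_sub _ _
            _ < ρ * m + b * (ρ * m) := add_lt_add_of_lt_of_le h2 h4
            _ ≤ (2 * b * ρ) * m := by
                have : ρ * m ≤ b * (ρ * m) := le_mul_of_one_le_left (by positivity) hb0'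
                linarith
            _ ≤ 1 * m := mul_le_mul_of_nonneg_right hbρ hm0.le
            _ = m := one_mul _
        rw [abs_mul, abs_of_pos hm0] at h3
        have h5 : |(b : ℝ) * t ⟨j, hj'⟩ - t ⟨j + 1, hj⟩| < 1 := by
          by_contra hge
          push Not at hge
          have := le_mul_of_one_le_right hm0.le hge
          linarith
        have h6 : |(b : ℤ) * t ⟨j, hj'⟩ - t ⟨j + 1, hj⟩| < 1 := by
          have : ((|(b : ℤ) * t ⟨j, hj'⟩ - t ⟨j + 1, hj⟩| : ℤ) : ℝ) < ((1 : ℤ) : ℝ) := by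
            push_cast
            exact h5
          exact_mod_cast this
        have h7 : (b : ℤ) * t ⟨j, hj'⟩ - t ⟨j + 1, hj⟩ = 0 := Int.abs_lt_one_iff.mp h6
        have h8 := ih hj'
        rw [h8] at h7
        rw [pow_succ]
        linarith
    have hk1 : k - 1 < k := by omega
    have hlast := hr ⟨k - 1, hk1⟩
    rw [hstep (k - 1) hk1] at hlast
    simp only at hlast
    push_cast at hlast
    have hr0 : (1 : ℝ) ≤ |(i : ℝ) - m * t ⟨0, by omega⟩| := by
      have hne : (i : ℤ) - m * t ⟨0, by omega⟩ ≠ 0 := by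
        intro h0
        have h1 : (i : ℤ) = m * t ⟨0, by omega⟩ := by linarith
        have h2 : (m : ℤ) ∣ i := ⟨_, h1⟩
        have h3 : m ∣ i := by exact_mod_cast h2
        have := Nat.le_of_dvd hi0 h3
        omega
      have h4 : (1 : ℤ) ≤ |(i : ℤ) - m * t ⟨0, by omega⟩| := Int.one_le_abs hne
      have h5 : ((1 : ℤ) : ℝ) ≤ ((|(i : ℤ) - m * t ⟨0, by omega⟩| : ℤ) : ℝ) := by
        exact_mod_cast h4
      push_cast at h5
      exact h5
    have e2 : (i : ℝ) * (b : ℝ) ^ (k - 1) - m * ((b : ℝ) ^ (k - 1) * t ⟨0, by omega⟩)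
        = (b : ℝ) ^ (k - 1) * ((i : ℝ) - m * t ⟨0, by omega⟩) := by ring
    rw [e2, abs_mul, abs_of_nonneg (by positivity : (0 : ℝ) ≤ (b : ℝ) ^ (k - 1))] at hlast
    have h9 : (b : ℝ) ^ (k - 1) < ρ * m := by
      refine lt_of_le_of_lt ?_ hlast
      exact le_mul_of_one_le_right (by positivity) hr0
    have h10 : (b : ℝ) ^ k = (b : ℝ) ^ (k - 1) * b := by
      rw [← pow_succ]
      congr 1
      omega
    have h11 : (m : ℝ) < ρ * m * b := by
      calc (m : ℝ) ≤ (b : ℝ) ^ k := hb1'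
        _ = (b : ℝ) ^ (k - 1) * b := h10
        _ < ρ * m * b := mul_lt_mul_of_pos_right h9 (by linarith)
    have h12 : ρ * m * b ≤ m := by
      have e : ρ * m * b = (b * ρ) * m := by ring
      rw [e]
      have h13 : (b : ℝ) * ρ ≤ 1 := by
        have : 0 ≤ (b : ℝ) * ρ := by positivity
        linarith
      calc (b * ρ) * m ≤ 1 * m := mul_le_mul_of_nonneg_right h13 hm0.le
        _ = m := one_mul _
    linarith

end Pool.Agent.W397.SC
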